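import Mathlib
import Pool.Agent.Helper37.LZ6

open MeasureTheory

namespace Pool.Agent.Results.MP_260e18_an.NoUniformDensity

/-- There is a continuous real function `f`, integrable on the line and not almost everywhere zero,
and a nonempty set `Λ` of real numbers of bounded density, such that `f + Λ` is a tiling at level
zero (the series converges absolutely and has sum zero at every point `x`), but `Λ` has no uniform
density: for no real number `D` does `#(Λ ∩ [x, x + r)) = D r + o(r)` hold as `r → ∞`,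
uniformly in `x`. -/
theorem result : ∃ (f : ℝ → ℝ) (Λ : Set ℝ),
    Continuous f ∧ Integrable f volume ∧ ¬ (f =ᵐ[volume] 0) ∧ Λ.Nonempty ∧
    (∃ B : ℕ, ∀ x : ℝ, (Λ ∩ Set.Ico x (x + 1)).encard ≤ (B : ℕ∞)) ∧
    (∀ x : ℝ, Summable (fun l : Λ => ‖f (x - (l : ℝ))‖) ∧ ∑' l : Λ, f (x - (l : ℝ)) = 0) ∧
    ¬ ∃ D : ℝ, ∀ ε : ℝ, 0 < ε → ∃ R : ℝ, 0 < R ∧ ∀ r : ℝ, R ≤ r → ∀ x : ℝ,
      |((Λ ∩ Set.Ico x (x + r)).ncard : ℝ) - D * r| ≤ ε * r :=
  Pool.Agent.LZ.main

end Pool.Agent.Results.MP_260e18_an.NoUniformDensity
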